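import Mathlib

/-!
The set of the points at which a finite measure on the line is not `O(|J|^γ)` has Hausdorff
measure zero in dimension `γ`.
-/

set_option autoImplicit false

open MeasureTheory Set Filter Topology
open scoped ENNReal NNReal

namespace Pool.Agent.U379.ED

/-- the points at which the measure `ρ` of the short intervals `J` is not `O(|J|^γ)` -/
def thick (ρ : Measure ℝ) (γ : ℝ) : Set ℝ :=
  {t | ∀ n : ℕ, ∃ x y, x ≤ t ∧ t ≤ y ∧ x < y ∧ y - x ≤ 1 / ((n : ℝ) + 1) ∧
    ENNReal.ofReal (((n : ℝ) + 1) * (y - x) ^ γ) ≤ ρ (Icc x y)}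

theorem haus_thick (ρ : Measure ℝ) [IsFiniteMeasure ρ] {γ : ℝ} (hγ : 0 < γ) :
    μH[γ] (thick ρ γ) = 0 := by
  set B := thick ρ γ with hB
  have key : ∀ n : ℕ, ∃ (u : Set ℝ) (m r : ℝ → ℝ), u.Countable ∧
      (∀ i ∈ u, 0 ≤ r i ∧ r i ≤ 1 / ((n : ℝ) + 1)) ∧
      B ⊆ ⋃ i : u, Metric.closedBall (m i) (5 * r i) ∧
      ∑' i : u, ENNReal.ofReal ((10 * r i) ^ γ)
        ≤ ENNReal.ofReal (5 ^ γ / ((n : ℝ) + 1)) * ρ univ := by
    intro n
    have hn : (0 : ℝ) < (n : ℝ) + 1 := by positivity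
    have hn1 : 1 / ((n : ℝ) + 1) ≤ 1 := by
      rw [div_le_one hn]
      have : (0 : ℝ) ≤ n := Nat.cast_nonneg n
      linarith
    choose! x y h1 h2 h3 h4 h5 using fun (t : ℝ) (ht : t ∈ B) => ht n
    obtain ⟨u, huB, hud, huc⟩ := Vitali.exists_disjoint_subfamily_covering_enlargement_closedBall
      B (fun t => (x t + y t) / 2) (fun t => (y t - x t) / 2) 1 (fun t ht => by
        have := h4 t ht
        have := h3 t ht
        linarith) 5 (by norm_num)
    have hcb : ∀ t, Metric.closedBall ((x t + y t) / 2) ((y t - x t) / 2) = Icc (x t) (y t) := by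
      intro t
      rw [Real.closedBall_eq_Icc]
      congr 1 <;> ring
    have hcount : u.Countable := by
      refine Set.PairwiseDisjoint.countable_of_nonempty_interior hud fun t ht => ?_
      rw [hcb, interior_Icc]
      exact nonempty_Ioo.mpr (h3 t (huB ht))
    have hc' : Countable u := hcount.to_subtype
    refine ⟨u, fun t => (x t + y t) / 2, fun t => (y t - x t) / 2, hcount, ?_, ?_, ?_⟩
    · intro t ht
      have a1 := h4 t (huB ht)
      have a2 := h3 t (huB ht)
      constructor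
      · simp only
        linarith
      · simp only
        have : 0 < 1 / ((n : ℝ) + 1) := by positivity
        linarith
    · intro t ht
      obtain ⟨b, hb, hsub⟩ := huc t ht
      refine mem_iUnion.mpr ⟨⟨b, hb⟩, hsub ?_⟩
      rw [hcb]
      exact ⟨h1 t ht, h2 t ht⟩
    · have hterm : ∀ i : u, ENNReal.ofReal ((10 * ((y i - x i) / 2)) ^ γ)
          ≤ ENNReal.ofReal (5 ^ γ / ((n : ℝ) + 1)) * ρ (Icc (x i) (y i)) := by
        intro i
        have a2 := h3 i (huB i.2)
        have a5 := h5 i (huB i.2)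
        have hyx : 0 ≤ y i - x i := by linarith
        have e1 : (10 * ((y i - x i) / 2)) ^ γ
            = 5 ^ γ / ((n : ℝ) + 1) * (((n : ℝ) + 1) * (y i - x i) ^ γ) := by
          have : 10 * ((y i - x i) / 2) = 5 * (y i - x i) := by ring
          rw [this, Real.mul_rpow (by norm_num) hyx]
          field_simp
        rw [e1, ENNReal.ofReal_mul (by positivity)]
        gcongr
      have hdisj : Pairwise (Function.onFun Disjoint fun i : u => Icc (x i) (y i)) := by
        intro i j hij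
        have := hud i.2 j.2 (fun h => hij (Subtype.ext h))
        simp only [Function.onFun] at this ⊢
        rwa [hcb, hcb] at this
      calc ∑' i : u, ENNReal.ofReal ((10 * ((y i - x i) / 2)) ^ γ)
          ≤ ∑' i : u, ENNReal.ofReal (5 ^ γ / ((n : ℝ) + 1)) * ρ (Icc (x i) (y i)) :=
            ENNReal.tsum_le_tsum hterm
        _ = ENNReal.ofReal (5 ^ γ / ((n : ℝ) + 1)) * ∑' i : u, ρ (Icc (x i) (y i)) :=
            ENNReal.tsum_mul_left
        _ = ENNReal.ofReal (5 ^ γ / ((n : ℝ) + 1)) * ρ (⋃ i : u, Icc (x i) (y i)) := by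
            rw [measure_iUnion hdisj fun i => measurableSet_Icc]
        _ ≤ _ := by
            gcongr
            exact subset_univ _
  choose u m r hu hr hcov hsum using key
  have hcu : ∀ n, Countable (u n) := fun n => (hu n).to_subtype
  have hdiam : ∀ n (i : u n), Metric.ediam (Metric.closedBall (m n i) (5 * r n i))
      ≤ ENNReal.ofReal (10 * r n i) := by
    intro n i
    rw [Real.closedBall_eq_Icc, Real.ediam_Icc]
    apply le_of_eq
    congr 1
    ring
  have hle := Measure.hausdorffMeasure_le_liminf_tsum (X := ℝ) (ι := fun n : ℕ => u n) γ B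
    (l := atTop) (fun n : ℕ => ENNReal.ofReal (10 / ((n : ℝ) + 1))) ?_
    (fun n i => Metric.closedBall (m n i) (5 * r n i)) ?_ ?_
  · have h0 : Tendsto (fun n : ℕ => ENNReal.ofReal (5 ^ γ / ((n : ℝ) + 1)) * ρ univ) atTop
        (𝓝 0) := by
      have t1 : Tendsto (fun n : ℕ => (5 : ℝ) ^ γ / ((n : ℝ) + 1)) atTop (𝓝 0) :=
        ((tendsto_const_div_atTop_nhds_zero_nat ((5 : ℝ) ^ γ)).comp
          (tendsto_add_atTop_nat 1)).congr fun n => by simp
      have t2 := ENNReal.tendsto_ofReal t1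
      rw [ENNReal.ofReal_zero] at t2
      have t3 := ENNReal.Tendsto.mul_const (b := ρ univ) t2 (Or.inr (measure_ne_top ρ univ))
      rwa [zero_mul] at t3
    have h1 : liminf (fun n => ∑' i : u n,
        Metric.ediam (Metric.closedBall (m n i) (5 * r n i)) ^ γ) atTop
        ≤ liminf (fun n : ℕ => ENNReal.ofReal (5 ^ γ / ((n : ℝ) + 1)) * ρ univ) atTop := by
      refine liminf_le_liminf (Eventually.of_forall fun n => ?_)
      refine le_trans (ENNReal.tsum_le_tsum fun i => ?_) (hsum n)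
      have b1 : 0 ≤ 10 * r n i := by
        have := (hr n i i.2).1
        positivity
      calc Metric.ediam (Metric.closedBall (m n i) (5 * r n i)) ^ γ
          ≤ ENNReal.ofReal (10 * r n i) ^ γ := ENNReal.rpow_le_rpow (hdiam n i) hγ.le
        _ = ENNReal.ofReal ((10 * r n i) ^ γ) := ENNReal.ofReal_rpow_of_nonneg b1 hγ.le
    rw [h0.liminf_eq] at h1
    exact le_antisymm (hle.trans h1) zero_le
  · have t1 : Tendsto (fun n : ℕ => (10 : ℝ) / ((n : ℝ) + 1)) atTop (𝓝 0) :=
      ((tendsto_const_div_atTop_nhds_zero_nat (10 : ℝ)).comp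
        (tendsto_add_atTop_nat 1)).congr fun n => by simp
    have t2 := ENNReal.tendsto_ofReal t1
    rwa [ENNReal.ofReal_zero] at t2
  · refine Eventually.of_forall fun n i => (hdiam n i).trans (ENNReal.ofReal_le_ofReal ?_)
    have := (hr n i i.2).2
    calc 10 * r n i ≤ 10 * (1 / ((n : ℝ) + 1)) := by gcongr
      _ = _ := by ring
  · exact Eventually.of_forall fun n => hcov n

/-- `∫_J θ` is not `O(|J|^γ)` only on a set of Hausdorff measure zero in dimension `γ` -/
theorem haus_bad {T γ : ℝ} (hγ : 0 < γ) {θ : ℝ → ℝ} (h0 : ∀ t, 0 ≤ θ t)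
    (hi : IntegrableOn θ (Ioo 0 T)) :
    μH[γ] {t | t ∈ Icc 0 T ∧ ¬ ∃ C δ : ℝ, 0 < δ ∧ ∀ x y, 0 ≤ x → x ≤ t → t ≤ y → y ≤ T →
      y - x ≤ δ → ∫ τ in x..y, θ τ ≤ C * (y - x) ^ γ} = 0 := by
  set ρ : Measure ℝ := (volume.restrict (Ioo 0 T)).withDensity fun t => ENNReal.ofReal (θ t)
    with hρ
  have hfin : IsFiniteMeasure ρ := by
    refine isFiniteMeasure_withDensity ?_
    rw [← ofReal_integral_eq_lintegral_ofReal hi (Eventually.of_forall h0)]
    exact ENNReal.ofReal_ne_top
  refine measure_mono_null ?_ (haus_thick ρ hγ)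
  rintro t ⟨ht, h⟩ n
  push Not at h
  obtain ⟨x, y, hx, hxt, hty, hyT, hyx, hlt⟩ := h ((n : ℝ) + 1) (1 / ((n : ℝ) + 1))
    (by positivity)
  have hne : x < y := by
    rcases eq_or_lt_of_le (hxt.trans hty) with h1 | h1
    · exfalso
      rw [h1, intervalIntegral.integral_same, sub_self, Real.zero_rpow hγ.ne', mul_zero] at hlt
      exact lt_irrefl _ hlt
    · exact h1
  refine ⟨x, y, hxt, hty, hne, hyx, ?_⟩
  have e1 : ρ (Icc x y) = ENNReal.ofReal (∫ τ in x..y, θ τ) := by
    have hsub : Ioo x y ⊆ Ioo 0 T := Ioo_subset_Ioo hx hyT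
    have hae : (Icc x y ∩ Ioo 0 T : Set ℝ) =ᵐ[volume] Ioo x y := by
      have h1 : (Icc x y ∩ Ioo 0 T : Set ℝ) =ᵐ[volume] (Ioo x y ∩ Ioo 0 T : Set ℝ) :=
        ae_eq_set_inter Ioo_ae_eq_Icc.symm (ae_eq_refl _)
      rwa [inter_eq_left.mpr hsub] at h1
    rw [hρ, withDensity_apply _ measurableSet_Icc, Measure.restrict_restrict measurableSet_Icc,
      Measure.restrict_congr_set hae,
      ← ofReal_integral_eq_lintegral_ofReal (hi.mono_set hsub) (Eventually.of_forall h0),
      intervalIntegral.integral_of_le hne.le, integral_Ioc_eq_integral_Ioo]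
  rw [e1]
  exact ENNReal.ofReal_le_ofReal hlt.le

end Pool.Agent.U379.ED
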