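import Pool.Agent.U379.ED.Ns

/-!
The energy defect is nonincreasing, or nondecreasing, if the energy changes slowly at the times
which are not quiet.
-/

set_option autoImplicit false
set_option linter.unusedSectionVars false

open MeasureTheory Set Filter Topology
open scoped InnerProductSpace ENNReal ContDiff NNReal

namespace Pool.Agent.U379.ED

open H772R2.NS.Pub Pool.Agent.TH301.EQ Pool.Agent.TH340.FF

theorem small_rate {γ C ε : ℝ} (hγ : 0 < γ) (hε : 0 < ε) :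
    ∃ η > 0, ∀ ℓ, 0 < ℓ → ℓ < η → C * ℓ ^ γ < ε := by
  have h1 : Tendsto (fun ℓ : ℝ => C * ℓ ^ γ) (𝓝 0) (𝓝 (C * 0 ^ γ)) :=
    (continuous_const.mul (Real.continuous_rpow_const hγ.le)).tendsto 0
  rw [Real.zero_rpow hγ.ne', mul_zero] at h1
  have h2 := h1.eventually (gt_mem_nhds hε)
  rw [Metric.eventually_nhds_iff] at h2
  obtain ⟨η, hη, h2⟩ := h2
  refine ⟨η, hη, fun ℓ h0 hℓ => h2 ?_⟩
  rw [Real.dist_eq, sub_zero, abs_of_pos h0]
  exact hℓ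

theorem rate_jump {D : ℝ → ℝ} {a t γ : ℝ} (hγ : 0 < γ) (hat : a < t)
    (h : ∃ C δ : ℝ, 0 < δ ∧ ∀ s ∈ Ico a t, t - s < δ → D t - D s ≤ C * (t - s) ^ γ) :
    ∀ ε > 0, ∃ s ∈ Ico a t, D t - ε < D s := by
  intro ε hε
  obtain ⟨C, δ, hδ, h⟩ := h
  obtain ⟨η, hη, h2⟩ := small_rate (C := C) hγ hε
  have hm : 0 < min (t - a) (min δ η) := lt_min (by linarith) (lt_min hδ hη)
  have m1 : min (t - a) (min δ η) ≤ t - a := min_le_left _ _
  have m2 : min (t - a) (min δ η) ≤ δ := (min_le_right _ _).trans (min_le_left _ _)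
  have m3 : min (t - a) (min δ η) ≤ η := (min_le_right _ _).trans (min_le_right _ _)
  refine ⟨t - min (t - a) (min δ η) / 2, ⟨by linarith, by linarith⟩, ?_⟩
  have a1 := h (t - min (t - a) (min δ η) / 2) ⟨by linarith, by linarith⟩ (by linarith)
  have a2 := h2 (t - (t - min (t - a) (min δ η) / 2)) (by linarith) (by linarith)
  linarith

theorem rate_jump' {D : ℝ → ℝ} {b t γ : ℝ} (hγ : 0 < γ) (htb : t < b)
    (h : ∃ C δ : ℝ, 0 < δ ∧ ∀ s ∈ Ioc t b, s - t < δ → D t - D s ≤ C * (s - t) ^ γ) :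
    ∀ ε > 0, ∃ s ∈ Ioc t b, D t - ε < D s := by
  intro ε hε
  obtain ⟨C, δ, hδ, h⟩ := h
  obtain ⟨η, hη, h2⟩ := small_rate (C := C) hγ hε
  have hm : 0 < min (b - t) (min δ η) := lt_min (by linarith) (lt_min hδ hη)
  have m1 : min (b - t) (min δ η) ≤ b - t := min_le_left _ _
  have m2 : min (b - t) (min δ η) ≤ δ := (min_le_right _ _).trans (min_le_left _ _)
  have m3 : min (b - t) (min δ η) ≤ η := (min_le_right _ _).trans (min_le_right _ _)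
  refine ⟨t + min (b - t) (min δ η) / 2, ⟨by linarith, by linarith⟩, ?_⟩
  have a1 := h (t + min (b - t) (min δ η) / 2) ⟨by linarith, by linarith⟩ (by linarith)
  have a2 := h2 (t + min (b - t) (min δ η) / 2 - t) (by linarith) (by linarith)
  linarith

theorem leftOK_jump {D : ℝ → ℝ} {a t : ℝ} (ha : 0 ≤ a) (hat : a < t) (h : LeftOK D t) :
    ∀ ε > 0, ∃ s ∈ Ico a t, D t - ε < D s := by
  intro ε hε
  obtain ⟨s, hs, _, h2⟩ := h (min ε (t - a)) (lt_min hε (by linarith)) (by linarith)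
  have m1 := min_le_left ε (t - a)
  have m2 := min_le_right ε (t - a)
  rw [abs_lt] at h2
  exact ⟨s, ⟨by linarith [hs.1], hs.2⟩, by linarith [h2.1]⟩

theorem rightOK_jump {D : ℝ → ℝ} {T b t : ℝ} (hb : b ≤ T) (htb : t < b) (h : RightOK T D t) :
    ∀ ε > 0, ∃ s ∈ Ioc t b, D t - ε < D s := by
  intro ε hε
  obtain ⟨s, hs, _, h2⟩ := h (min ε (b - t)) (lt_min hε (by linarith)) (by linarith)
  have m1 := min_le_left ε (b - t)
  have m2 := min_le_right ε (b - t)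
  rw [abs_lt] at h2
  exact ⟨s, ⟨hs.1, by linarith [hs.2]⟩, by linarith [h2.1]⟩

variable {Ω : Set R3} {ν T : ℝ} {u : ℝ → L2 Ω R3} {G : ℝ → L2 Ω Mat} {f : ℝ → L2 Ω R3}

theorem leftOK_pub (hΩ : IsOpen Ω) (hν : 0 ≤ ν) (hT : 0 < T) (hu : IsWeakSolution Ω ν T u G f)
    {t : ℝ} (ht : t ∈ Icc 0 T)
    (h : LeftOK (H772R2.NS.defect (H := H772R2.NS.L2V (Ω : Set H772R2.NS.E3))
      (K := H772R2.NS.L2M (Ω : Set H772R2.NS.E3)) ν u G f) t) :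
    LeftOK (energyDefect ν u G f) t := by
  intro ε hε h0
  obtain ⟨s, hs, hs0, h2⟩ := h ε hε h0
  refine ⟨s, hs, hs0, ?_⟩
  rw [pub_defect_eq hΩ hν hT hu ht, pub_defect_eq hΩ hν hT hu ⟨hs0, hs.2.le.trans ht.2⟩]
  exact h2

theorem rightOK_pub (hΩ : IsOpen Ω) (hν : 0 ≤ ν) (hT : 0 < T) (hu : IsWeakSolution Ω ν T u G f)
    {t : ℝ} (ht : t ∈ Icc 0 T)
    (h : RightOK T (H772R2.NS.defect (H := H772R2.NS.L2V (Ω : Set H772R2.NS.E3))
      (K := H772R2.NS.L2M (Ω : Set H772R2.NS.E3)) ν u G f) t) :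
    RightOK T (energyDefect ν u G f) t := by
  intro ε hε h0
  obtain ⟨s, hs, hs0, h2⟩ := h ε hε h0
  refine ⟨s, hs, hs0, ?_⟩
  rw [pub_defect_eq hΩ hν hT hu ht, pub_defect_eq hΩ hν hT hu ⟨ht.1.trans hs.1.le, hs0⟩]
  exact h2

/-- There are no jumps at the tame times. -/
theorem tame_ok (hΩ : IsOpen Ω) (hν : 0 ≤ ν) (hT : 0 < T) (hu : IsWeakSolution Ω ν T u G f)
    {θ : ℝ → ℝ} (hθ0 : ∀ t, 0 ≤ θ t) (hθ : IntervalIntegrable θ volume 0 T) {t : ℝ}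
    (ht : t ∈ Icc 0 T) (h : TameAt T (fun τ => ‖G τ‖ ^ 2) θ t) :
    LeftOK (energyDefect ν u G f) t ∧ RightOK T (energyDefect ν u G f) t := by
  obtain ⟨M, hM⟩ := hu.bdd
  obtain ⟨m, hm⟩ := tame_of_tameAt (fun τ => by positivity) (ii_of_on hT (pub_G2 hu)) hθ0 hθ ht h
  have h0 : ∀ τ, 0 ≤ (m : ℝ) * (θ τ + 1) := fun τ => by
    have := hθ0 τ
    positivity
  have hi : IntervalIntegrable (fun τ => (m : ℝ) * (θ τ + 1)) volume 0 T :=
    (hθ.add intervalIntegrable_const).const_mul _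
  exact ⟨leftOK_pub hΩ hν hT hu ht
      (left_tame (Ω := (Ω : Set H772R2.NS.E3)) hΩ hν hT (toNS hu) hM h0 hi hm),
    rightOK_pub hΩ hν hT hu ht
      (right_tame (Ω := (Ω : Set H772R2.NS.E3)) hΩ hν hT (toNS hu) hM h0 hi hm)⟩

/-- the weights -/
noncomputable def wts {X : Type*} [Norm X] (r : ℝ) (G : ℝ → X) (n : ℕ) (τ : ℝ) : ℝ :=
  ‖G τ‖ ^ (if n = 0 then (2 : ℝ) else r) + 1

theorem wts_nonneg {X : Type*} [NormedAddCommGroup X] (r : ℝ) (G : ℝ → X) (n : ℕ) (τ : ℝ) :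
    0 ≤ wts r G n τ := by
  unfold wts
  positivity

theorem two_int (hu : IsWeakSolution Ω ν T u G f) :
    IntegrableOn (fun τ => ‖G τ‖ ^ (2 : ℝ)) (Ioo 0 T) := by
  have h1 := pub_G2 hu
  refine h1.congr_fun (fun τ _ => ?_) measurableSet_Ioo
  simp

theorem wts_int (hu : IsWeakSolution Ω ν T u G f) {r : ℝ}
    (hG : IntegrableOn (fun τ => ‖G τ‖ ^ r) (Ioo 0 T)) (n : ℕ) :
    IntegrableOn (wts r G n) (Ioo 0 T) := by
  have h1 : IntegrableOn (fun _ : ℝ => (1 : ℝ)) (Ioo 0 T) := by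
    rw [integrableOn_const_iff]
    right
    exact measure_Ioo_lt_top
  by_cases hn : n = 0
  · have e : wts r G n = fun τ => ‖G τ‖ ^ (2 : ℝ) + 1 := by
      funext τ
      unfold wts
      rw [if_pos hn]
    rw [e]
    exact (two_int hu).add h1
  · have e : wts r G n = fun τ => ‖G τ‖ ^ r + 1 := by
      funext τ
      unfold wts
      rw [if_neg hn]
    rw [e]
    exact hG.add h1

theorem quiet_tame (hT : 0 < T) (hu : IsWeakSolution Ω ν T u G f) {r : ℝ} (hr : 2 ≤ r)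
    (hr' : r < 5 / 2) (hG : IntegrableOn (fun τ => ‖G τ‖ ^ r) (Ioo 0 T)) {t : ℝ}
    (ht : t ∈ Icc 0 T) (h : Quiet T 2 G t ∨ Quiet T r G t) :
    ∃ n, TameAt T (fun τ => ‖G τ‖ ^ 2) (wts r G n) t := by
  rcases h with h | h
  · exact ⟨0, tame_of_quiet le_rfl (by norm_num) (ii_of_on hT (pub_G2 hu))
      (ii_of_on hT (two_int hu)) ht h⟩
  · exact ⟨1, tame_of_quiet hr hr' (ii_of_on hT (pub_G2 hu)) (ii_of_on hT hG) ht h⟩

/-- the set with a null image -/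
theorem image_null' (hΩ : IsOpen Ω) (hν : 0 ≤ ν) (hT : 0 < T) (hu : IsWeakSolution Ω ν T u G f)
    {r : ℝ} (hr : 2 ≤ r) (hr' : r < 5 / 2)
    (hG : IntegrableOn (fun τ => ‖G τ‖ ^ r) (Ioo 0 T)) :
    volume (energyDefect ν u G f '' {t | t ∈ Icc 0 T ∧
      (u t ∈ H10sigma Ω ∨ Quiet T 2 G t ∨ Quiet T r G t)}) = 0 := by
  refine measure_mono_null (image_mono ?_) (pub_null hΩ hν hT hu (wts_nonneg r G)
    (wts_int hu hG))
  rintro t ⟨ht, h | h⟩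
  · exact ⟨ht, Or.inl h⟩
  · exact ⟨ht, Or.inr (quiet_tame hT hu hr hr' hG ht h)⟩

/-- the sequences of exponents and of sets -/
noncomputable def cons' {α : Type*} (x : α) (f : ℕ → α) : ℕ → α
  | 0 => x
  | n + 1 => f n

/-- the times which are not quiet -/
def bad {X : Type*} [Norm X] (T r : ℝ) (G : ℝ → X) : Set ℝ :=
  {t | t ∈ Icc 0 T ∧ ¬ Quiet T r G t}

theorem bad_null {X : Type*} [NormedAddCommGroup X] {T r : ℝ} (hr' : r < 5 / 2) {G : ℝ → X}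
    (hG : IntegrableOn (fun τ => ‖G τ‖ ^ r) (Ioo 0 T)) : μH[gam r] (bad T r G) = 0 :=
  haus_bad (T := T) (gam_pos hr') (θ := fun τ => ‖G τ‖ ^ r) (fun τ => by positivity) hG

theorem forward (hΩ : IsOpen Ω) (hν : 0 ≤ ν) (hT : 0 < T) (hu : IsWeakSolution Ω ν T u G f)
    {r : ℝ} (hr : 2 ≤ r) (hr' : r < 5 / 2)
    (hG : IntegrableOn (fun τ => ‖G τ‖ ^ r) (Ioo 0 T)) {N : Set ℝ} (hN : N.Countable)
    {β : ℕ → ℝ} {S : ℕ → Set ℝ} (hβ : ∀ i, 0 < β i) (hS : ∀ i, μH[β i] (S i) = 0)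
    {a b : ℝ} (ha : 0 ≤ a) (hab : a ≤ b) (hb : b ≤ T)
    (h : ∀ t ∈ Ioc a b, Quiet T 2 G t ∨ Quiet T r G t ∨
      LeftRate (gam r) (energyDefect ν u G f) t ∨
      (∃ i, t ∈ S i ∧ LeftRate (β i) (energyDefect ν u G f) t) ∨
      (NoJumpLeft u t ∧ (t ∈ N ∨ u t ∈ H10sigma Ω))) :
    energyDefect ν u G f b ≤ energyDefect ν u G f a := by
  have hI : ∀ t ∈ Icc a b, t ∈ Icc 0 T := fun t ht => ⟨ha.trans ht.1, ht.2.trans hb⟩
  have hγ := gam_pos hr'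
  obtain ⟨M, hM⟩ := hu.bdd
  have hq : ∀ t ∈ Ioc a b, Quiet T 2 G t ∨ Quiet T r G t → LeftOK (energyDefect ν u G f) t := by
    intro t ht h1
    obtain ⟨n, hn⟩ := quiet_tame hT hu hr hr' hG (hI t ⟨ht.1.le, ht.2⟩) h1
    exact (tame_ok hΩ hν hT hu (wts_nonneg r G n) (ii_of_on hT (wts_int hu hG n))
      (hI t ⟨ht.1.le, ht.2⟩) hn).1
  have hrate : ∀ c, ∀ t ∈ Ioc a b, LeftRate c (energyDefect ν u G f) t →
      ∃ C δ : ℝ, 0 < δ ∧ ∀ s ∈ Ico a t,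
      t - s < δ → energyDefect ν u G f t - energyDefect ν u G f s ≤ C * (t - s) ^ c := by
    intro c t ht h1
    obtain ⟨C, δ, hδ, h2⟩ := h1
    exact ⟨C, δ, hδ, fun s hs => h2 s ⟨ha.trans hs.1, hs.2⟩⟩
  refine record (γ := cons' (gam r) β) (B := cons' (bad T r G) S) (N := N) hab ?_ ?_
    (image_null' hΩ hν hT hu hr hr' hG) ?_ hN ?_ ?_
  · rintro (_ | i)
    · exact hγ
    · exact hβ i
  · intro t ht ε hε
    obtain ⟨δ, hδ, h1⟩ := ed_usc hΩ hν hT hu t (hI t ht) ε hε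
    exact ⟨δ, hδ, fun s hs => h1 s (hI s hs)⟩
  · rintro (_ | i)
    · exact bad_null hr' hG
    · exact hS i
  · intro t ht
    have hn : NoJumpLeft u t → ∀ ε > 0, ∃ s ∈ Ico a t,
        energyDefect ν u G f t - ε < energyDefect ν u G f s := fun h1 => by
      refine leftOK_jump ha ht.1 (leftOK_pub hΩ hν hT hu (hI t ⟨ht.1.le, ht.2⟩) ?_)
      exact left_nojump (Ω := (Ω : Set H772R2.NS.E3)) hΩ hν hT (toNS hu) hM
        (hI t ⟨ht.1.le, ht.2⟩) h1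
    rcases h t ht with h1 | h1 | h1 | ⟨i, _, h1⟩ | h1
    · exact leftOK_jump ha ht.1 (hq t ht (Or.inl h1))
    · exact leftOK_jump ha ht.1 (hq t ht (Or.inr h1))
    · exact rate_jump hγ ht.1 (hrate _ t ht h1)
    · exact rate_jump (hβ i) ht.1 (hrate _ t ht h1)
    · exact hn h1.1
  · intro t ht
    by_cases hqr : Quiet T r G t
    · exact Or.inr (Or.inl ⟨hI t ⟨ht.1.le, ht.2⟩, Or.inr (Or.inr hqr)⟩)
    rcases h t ht with h1 | h1 | h1 | ⟨i, hi, h1⟩ | ⟨_, h1 | h1⟩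
    · exact Or.inr (Or.inl ⟨hI t ⟨ht.1.le, ht.2⟩, Or.inr (Or.inl h1)⟩)
    · exact absurd h1 hqr
    · exact Or.inr (Or.inr ⟨0, ⟨hI t ⟨ht.1.le, ht.2⟩, hqr⟩, hrate _ t ht h1⟩)
    · exact Or.inr (Or.inr ⟨i + 1, hi, hrate _ t ht h1⟩)
    · exact Or.inl h1
    · exact Or.inr (Or.inl ⟨hI t ⟨ht.1.le, ht.2⟩, Or.inl h1⟩)

theorem backward (hΩ : IsOpen Ω) (hν : 0 ≤ ν) (hT : 0 < T) (hu : IsWeakSolution Ω ν T u G f)
    {r : ℝ} (hr : 2 ≤ r) (hr' : r < 5 / 2)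
    (hG : IntegrableOn (fun τ => ‖G τ‖ ^ r) (Ioo 0 T)) {N : Set ℝ} (hN : N.Countable)
    {β : ℕ → ℝ} {S : ℕ → Set ℝ} (hβ : ∀ i, 0 < β i) (hS : ∀ i, μH[β i] (S i) = 0)
    {a b : ℝ} (ha : 0 ≤ a) (hab : a ≤ b) (hb : b ≤ T)
    (h : ∀ t ∈ Ico a b, Quiet T 2 G t ∨ Quiet T r G t ∨
      RightRate (gam r) T (energyDefect ν u G f) t ∨
      (∃ i, t ∈ S i ∧ RightRate (β i) T (energyDefect ν u G f) t) ∨
      (NoJumpRight T u t ∧ (t ∈ N ∨ u t ∈ H10sigma Ω))) :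
    energyDefect ν u G f a ≤ energyDefect ν u G f b := by
  have hI : ∀ t ∈ Icc a b, t ∈ Icc 0 T := fun t ht => ⟨ha.trans ht.1, ht.2.trans hb⟩
  have hγ := gam_pos hr'
  obtain ⟨M, hM⟩ := hu.bdd
  have hq : ∀ t ∈ Ico a b, Quiet T 2 G t ∨ Quiet T r G t →
      RightOK T (energyDefect ν u G f) t := by
    intro t ht h1
    obtain ⟨n, hn⟩ := quiet_tame hT hu hr hr' hG (hI t ⟨ht.1, ht.2.le⟩) h1
    exact (tame_ok hΩ hν hT hu (wts_nonneg r G n) (ii_of_on hT (wts_int hu hG n))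
      (hI t ⟨ht.1, ht.2.le⟩) hn).2
  have hrate : ∀ c, ∀ t ∈ Ico a b, RightRate c T (energyDefect ν u G f) t →
      ∃ C δ : ℝ, 0 < δ ∧ ∀ s ∈ Ioc t b,
      s - t < δ → energyDefect ν u G f t - energyDefect ν u G f s ≤ C * (s - t) ^ c := by
    intro c t ht h1
    obtain ⟨C, δ, hδ, h2⟩ := h1
    exact ⟨C, δ, hδ, fun s hs => h2 s ⟨hs.1, hs.2.trans hb⟩⟩
  refine record' (γ := cons' (gam r) β) (B := cons' (bad T r G) S) (N := N) hab ?_ ?_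
    (image_null' hΩ hν hT hu hr hr' hG) ?_ hN ?_ ?_
  · rintro (_ | i)
    · exact hγ
    · exact hβ i
  · intro t ht ε hε
    obtain ⟨δ, hδ, h1⟩ := ed_usc hΩ hν hT hu t (hI t ht) ε hε
    exact ⟨δ, hδ, fun s hs => h1 s (hI s hs)⟩
  · rintro (_ | i)
    · exact bad_null hr' hG
    · exact hS i
  · intro t ht
    have hn : NoJumpRight T u t → ∀ ε > 0, ∃ s ∈ Ioc t b,
        energyDefect ν u G f t - ε < energyDefect ν u G f s := fun h1 => by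
      refine rightOK_jump hb ht.2 (rightOK_pub hΩ hν hT hu (hI t ⟨ht.1, ht.2.le⟩) ?_)
      exact right_nojump (Ω := (Ω : Set H772R2.NS.E3)) hΩ hν hT (toNS hu) hM
        (hI t ⟨ht.1, ht.2.le⟩) h1
    rcases h t ht with h1 | h1 | h1 | ⟨i, _, h1⟩ | h1
    · exact rightOK_jump hb ht.2 (hq t ht (Or.inl h1))
    · exact rightOK_jump hb ht.2 (hq t ht (Or.inr h1))
    · exact rate_jump' hγ ht.2 (hrate _ t ht h1)
    · exact rate_jump' (hβ i) ht.2 (hrate _ t ht h1)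
    · exact hn h1.1
  · intro t ht
    by_cases hqr : Quiet T r G t
    · exact Or.inr (Or.inl ⟨hI t ⟨ht.1, ht.2.le⟩, Or.inr (Or.inr hqr)⟩)
    rcases h t ht with h1 | h1 | h1 | ⟨i, hi, h1⟩ | ⟨_, h1 | h1⟩
    · exact Or.inr (Or.inl ⟨hI t ⟨ht.1, ht.2.le⟩, Or.inr (Or.inl h1)⟩)
    · exact absurd h1 hqr
    · exact Or.inr (Or.inr ⟨0, ⟨hI t ⟨ht.1, ht.2.le⟩, hqr⟩, hrate _ t ht h1⟩)
    · exact Or.inr (Or.inr ⟨i + 1, hi, hrate _ t ht h1⟩)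
    · exact Or.inl h1
    · exact Or.inr (Or.inl ⟨hI t ⟨ht.1, ht.2.le⟩, Or.inl h1⟩)

end Pool.Agent.U379.ED
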