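import Pool.Agent.U379.ED.Quiet

/-!
The energy defect: increments, semicontinuity, and the rate conditions.
-/

set_option autoImplicit false
set_option linter.unusedSectionVars false

open MeasureTheory Set Filter Topology
open scoped InnerProductSpace ENNReal ContDiff NNReal

namespace Pool.Agent.U379.ED

open H772R2.NS.Pub Pool.Agent.TH301.EQ Pool.Agent.TH340.FF

variable {Ω : Set R3} {ν T : ℝ} {u : ℝ → L2 Ω R3} {G : ℝ → L2 Ω Mat} {f : ℝ → L2 Ω R3}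

/-- `D(t) - D(s) ≤ C (t - s)^γ` for `s < t` close to `t`. -/
def LeftRate (γ : ℝ) (D : ℝ → ℝ) (t : ℝ) : Prop :=
  ∃ C δ : ℝ, 0 < δ ∧ ∀ s ∈ Ico 0 t, t - s < δ → D t - D s ≤ C * (t - s) ^ γ

/-- `D(t) - D(s) ≤ C (s - t)^γ` for `s > t` close to `t`. -/
def RightRate (γ T : ℝ) (D : ℝ → ℝ) (t : ℝ) : Prop :=
  ∃ C δ : ℝ, 0 < δ ∧ ∀ s ∈ Ioc t T, s - t < δ → D t - D s ≤ C * (s - t) ^ γ

theorem fu_ii (hΩ : IsOpen Ω) (hν : 0 ≤ ν) (hT : 0 < T) (hu : IsWeakSolution Ω ν T u G f) :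
    IntervalIntegrable (fun τ => ⟪f τ, u τ⟫_ℝ) volume 0 T := by
  obtain ⟨M, hM⟩ := hu.bdd
  have h1 := pow_ii (Ω := (Ω : Set H772R2.NS.E3)) hΩ hν hT (toNS hu) hM
  have h2 := (ii_of_on hT (pub_G2 hu)).const_mul ν
  refine (h1.add h2).congr (fun τ _ => ?_)
  show (⟪f τ, u τ⟫_ℝ - ν * ‖G τ‖ ^ 2) + ν * ‖G τ‖ ^ 2 = ⟪f τ, u τ⟫_ℝ
  ring

theorem ed_sub (hΩ : IsOpen Ω) (hν : 0 ≤ ν) (hT : 0 < T) (hu : IsWeakSolution Ω ν T u G f)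
    {s t : ℝ} (hs : s ∈ Icc 0 T) (ht : t ∈ Icc 0 T) :
    energyDefect ν u G f t - energyDefect ν u G f s = (∫ τ in s..t, ⟪f τ, u τ⟫_ℝ)
      - (‖u t‖ ^ 2 - ‖u s‖ ^ 2) / 2 - ν * ∫ τ in s..t, ‖G τ‖ ^ 2 := by
  have hi : ∀ {g : ℝ → ℝ}, IntervalIntegrable g volume 0 T → ∀ x ∈ Icc 0 T,
      IntervalIntegrable g volume 0 x := fun hg x hx => sub_int hg le_rfl hx.1 hx.2
  have h1 := intervalIntegral.integral_interval_sub_left (hi (fu_ii hΩ hν hT hu) t ht)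
    (hi (fu_ii hΩ hν hT hu) s hs)
  have h2 := intervalIntegral.integral_interval_sub_left
    (hi (ii_of_on hT (pub_G2 hu)) t ht) (hi (ii_of_on hT (pub_G2 hu)) s hs)
  rw [← h1, ← h2]
  unfold energyDefect
  ring

theorem wk_lim (hu : IsWeakSolution Ω ν T u G f) {t : ℝ} (ht : t ∈ Icc 0 T) {ε : ℝ}
    (hε : 0 < ε) : ∃ δ > 0, ∀ s ∈ Icc 0 T, |s - t| < δ → ‖u t‖ ^ 2 - 2 * ε < ‖u s‖ ^ 2 := by
  have h1 := hu.wcont (u t) t ht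
  rw [Metric.continuousWithinAt_iff] at h1
  obtain ⟨δ, hδ, h1⟩ := h1 ε hε
  refine ⟨δ, hδ, fun s hs hst => ?_⟩
  have h2 := h1 hs (by rwa [Real.dist_eq])
  rw [Real.dist_eq, abs_lt, real_inner_self_eq_norm_sq] at h2
  have h3 : 0 ≤ ‖u s - u t‖ ^ 2 := by positivity
  rw [norm_sub_sq_real] at h3
  linarith [h2.1]

theorem ed_usc (hΩ : IsOpen Ω) (hν : 0 ≤ ν) (hT : 0 < T) (hu : IsWeakSolution Ω ν T u G f) :
    ∀ t ∈ Icc 0 T, ∀ ε > 0, ∃ δ > 0, ∀ s ∈ Icc 0 T, |s - t| < δ →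
      energyDefect ν u G f s < energyDefect ν u G f t + ε := by
  intro t ht ε hε
  obtain ⟨δ₁, h1, k1⟩ := wk_lim hu ht (show 0 < ε / 4 by positivity)
  obtain ⟨δ₂, h2, k2⟩ := small_prim (fu_ii hΩ hν hT hu) hT.le ht (show 0 < ε / 4 by positivity)
  obtain ⟨δ₃, h3, k3⟩ := small_prim ((ii_of_on hT (pub_G2 hu)).const_mul ν) hT.le ht
    (show 0 < ε / 4 by positivity)
  refine ⟨min δ₁ (min δ₂ δ₃), lt_min h1 (lt_min h2 h3), fun s hs hst => ?_⟩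
  have a1 := k1 s hs (hst.trans_le (min_le_left _ _))
  have a2 := k2 s hs (hst.trans_le ((min_le_right _ _).trans (min_le_left _ _)))
  have a3 := k3 s hs (hst.trans_le ((min_le_right _ _).trans (min_le_right _ _)))
  rw [intervalIntegral.integral_const_mul] at a3
  have a4 := ed_sub hΩ hν hT hu ht hs
  rw [abs_lt] at a2 a3
  linarith [a2.2, a3.1]

theorem f_int (hu : IsWeakSolution Ω ν T u G f) (hT : 0 < T) :
    IntervalIntegrable (fun τ => ‖f τ‖) volume 0 T :=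
  ii_of_on hT hu.force.norm

theorem f2_int (hT : 0 < T) (hf : MemLp f 2 (volume.restrict (Ioo 0 T))) :
    IntervalIntegrable (fun τ => ‖f τ‖ ^ 2) volume 0 T :=
  ii_of_on hT ((memLp_two_iff_integrable_sq_norm hf.aestronglyMeasurable).mp hf)

/-- the work of the force -/
theorem force_work (hΩ : IsOpen Ω) (hν : 0 ≤ ν) (hT : 0 < T) (hu : IsWeakSolution Ω ν T u G f)
    (hf : MemLp f 2 (volume.restrict (Ioo 0 T))) :
    ∃ F : ℝ, 0 ≤ F ∧ ∀ s t, 0 ≤ s → s < t → t ≤ T →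
      |∫ τ in s..t, ⟪f τ, u τ⟫_ℝ| ≤ F * Real.sqrt (t - s) := by
  obtain ⟨M, hM⟩ := hu.bdd
  have hM0 : 0 ≤ M := (norm_nonneg _).trans (hM 0 ⟨le_rfl, hT.le⟩)
  have hI0 : 0 ≤ ∫ τ in (0 : ℝ)..T, ‖f τ‖ ^ 2 :=
    intervalIntegral.integral_nonneg hT.le fun τ _ => by positivity
  refine ⟨M * (((∫ τ in (0 : ℝ)..T, ‖f τ‖ ^ 2) + 1) / 2), by positivity,
    fun s t hs hst ht => ?_⟩
  have hℓ : 0 < t - s := by linarith
  have hsq : 0 < Real.sqrt (t - s) := Real.sqrt_pos.mpr hℓ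
  have i0 := sub_int (fu_ii hΩ hν hT hu) hs hst.le ht
  have i1 := sub_int (f_int hu hT) hs hst.le ht
  have i2 := sub_int (f2_int hT hf) hs hst.le ht
  have e1 : |∫ τ in s..t, ⟪f τ, u τ⟫_ℝ| ≤ ∫ τ in s..t, |⟪f τ, u τ⟫_ℝ| :=
    intervalIntegral.abs_integral_le_integral_abs hst.le
  have e2 : ∫ τ in s..t, |⟪f τ, u τ⟫_ℝ|
      ≤ ∫ τ in s..t, M * (Real.sqrt (t - s) / 2 * ‖f τ‖ ^ 2 + 1 / (2 * Real.sqrt (t - s))) := by
    refine intervalIntegral.integral_mono_on hst.le i0.abs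
      (((i2.const_mul _).add intervalIntegrable_const).const_mul _) fun τ hτ => ?_
    have h1 : |⟪f τ, u τ⟫_ℝ| ≤ ‖f τ‖ * ‖u τ‖ := abs_real_inner_le_norm _ _
    have h2 : ‖u τ‖ ≤ M := hM τ ⟨hs.trans hτ.1, hτ.2.trans ht⟩
    have h3 : ‖f τ‖ ≤ Real.sqrt (t - s) / 2 * ‖f τ‖ ^ 2 + 1 / (2 * Real.sqrt (t - s)) := by
      have h4 : 0 ≤ (Real.sqrt (t - s) * ‖f τ‖ - 1) ^ 2 / (2 * Real.sqrt (t - s)) := by positivity
      have h5 : (Real.sqrt (t - s) * ‖f τ‖ - 1) ^ 2 / (2 * Real.sqrt (t - s))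
          = Real.sqrt (t - s) / 2 * ‖f τ‖ ^ 2 + 1 / (2 * Real.sqrt (t - s)) - ‖f τ‖ := by
        field_simp
        ring
      linarith
    calc |⟪f τ, u τ⟫_ℝ| ≤ ‖f τ‖ * ‖u τ‖ := h1
      _ ≤ ‖f τ‖ * M := by gcongr
      _ = M * ‖f τ‖ := mul_comm _ _
      _ ≤ _ := by gcongr
  have e3 : ∫ τ in s..t, M * (Real.sqrt (t - s) / 2 * ‖f τ‖ ^ 2 + 1 / (2 * Real.sqrt (t - s)))
      = M * (Real.sqrt (t - s) / 2 * (∫ τ in s..t, ‖f τ‖ ^ 2)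
        + (t - s) * (1 / (2 * Real.sqrt (t - s)))) := by
    rw [intervalIntegral.integral_const_mul, intervalIntegral.integral_add (i2.const_mul _)
      intervalIntegrable_const, intervalIntegral.integral_const_mul,
      intervalIntegral.integral_const, smul_eq_mul]
  have e4 : (t - s) * (1 / (2 * Real.sqrt (t - s))) = Real.sqrt (t - s) / 2 := by
    have h5 : Real.sqrt (t - s) * Real.sqrt (t - s) = t - s := Real.mul_self_sqrt hℓ.le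
    rw [mul_one_div, div_eq_div_iff (by positivity) (by norm_num)]
    nlinarith
  have e5 : ∫ τ in s..t, ‖f τ‖ ^ 2 ≤ ∫ τ in (0 : ℝ)..T, ‖f τ‖ ^ 2 :=
    int_mono_set (f2_int hT hf) (fun τ => by positivity) le_rfl hs hst.le ht le_rfl
  rw [e4] at e3
  calc |∫ τ in s..t, ⟪f τ, u τ⟫_ℝ| ≤ M * (Real.sqrt (t - s) / 2 * (∫ τ in s..t, ‖f τ‖ ^ 2)
        + Real.sqrt (t - s) / 2) := (e1.trans e2).trans e3.le
    _ ≤ M * (Real.sqrt (t - s) / 2 * (∫ τ in (0 : ℝ)..T, ‖f τ‖ ^ 2)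
        + Real.sqrt (t - s) / 2) := by gcongr
    _ = _ := by ring

theorem sqrt_le_rpow {γ ℓ : ℝ} (hγ : γ ≤ 1 / 2) (h0 : 0 < ℓ) (h1 : ℓ ≤ 1) :
    Real.sqrt ℓ ≤ ℓ ^ γ := by
  rw [Real.sqrt_eq_rpow]
  exact Real.rpow_le_rpow_of_exponent_ge h0 h1 hγ

theorem rate_left (hΩ : IsOpen Ω) (hν : 0 ≤ ν) (hT : 0 < T) (hu : IsWeakSolution Ω ν T u G f)
    (hf : MemLp f 2 (volume.restrict (Ioo 0 T))) {γ : ℝ} (hγ : γ ≤ 1 / 2) {t : ℝ}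
    (ht : t ∈ Ioc 0 T) (h : ∃ C δ : ℝ, 0 < δ ∧ ∀ s ∈ Ico 0 t, t - s < δ →
      ‖u s‖ ^ 2 - ‖u t‖ ^ 2 ≤ C * (t - s) ^ γ) :
    LeftRate γ (energyDefect ν u G f) t := by
  obtain ⟨C, δ, hδ, h⟩ := h
  obtain ⟨F, hF, hw⟩ := force_work hΩ hν hT hu hf
  refine ⟨F + C / 2, min δ 1, lt_min hδ one_pos, fun s hs hst => ?_⟩
  have a1 := h s hs (hst.trans_le (min_le_left _ _))
  have a2 := hw s t hs.1 hs.2 ht.2
  have a3 := sqrt_le_rpow (ℓ := t - s) hγ (by linarith [hs.2])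
    (hst.le.trans (min_le_right _ _))
  rw [ed_sub hΩ hν hT hu ⟨hs.1, hs.2.le.trans ht.2⟩ ⟨ht.1.le, ht.2⟩]
  have a4 : 0 ≤ ν * ∫ τ in s..t, ‖G τ‖ ^ 2 :=
    mul_nonneg hν (intervalIntegral.integral_nonneg hs.2.le fun τ _ => by positivity)
  have a5 := (le_abs_self _).trans (a2.trans (mul_le_mul_of_nonneg_left a3 hF))
  linarith

theorem rate_right (hΩ : IsOpen Ω) (hν : 0 ≤ ν) (hT : 0 < T) (hu : IsWeakSolution Ω ν T u G f)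
    (hf : MemLp f 2 (volume.restrict (Ioo 0 T))) {γ : ℝ} (hγ : γ ≤ 1 / 2) {t : ℝ}
    (ht : t ∈ Ico 0 T) (h : ∃ C δ : ℝ, 0 < δ ∧ ∀ s ∈ Ioc t T, s - t < δ →
      ‖u s‖ ^ 2 / 2 + ν * (∫ τ in t..s, ‖G τ‖ ^ 2) ≤ ‖u t‖ ^ 2 / 2 + C * (s - t) ^ γ) :
    RightRate γ T (energyDefect ν u G f) t := by
  obtain ⟨C, δ, hδ, h⟩ := h
  obtain ⟨F, hF, hw⟩ := force_work hΩ hν hT hu hf
  refine ⟨F + C, min δ 1, lt_min hδ one_pos, fun s hs hst => ?_⟩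
  have a1 := h s hs (hst.trans_le (min_le_left _ _))
  have a2 := hw t s ht.1 hs.1 hs.2
  have a3 := sqrt_le_rpow (ℓ := s - t) hγ (by linarith [hs.1])
    (hst.le.trans (min_le_right _ _))
  have a4 := ed_sub hΩ hν hT hu (s := t) (t := s) ⟨ht.1, ht.2.le⟩ ⟨ht.1.trans hs.1.le, hs.2⟩
  have a5 := (neg_le_abs _).trans (a2.trans (mul_le_mul_of_nonneg_left a3 hF))
  linarith

end Pool.Agent.U379.ED
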