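import Mathlib

/-!
Upper semicontinuous functions on an interval: the first times at which the levels are reached.
-/

set_option autoImplicit false

open MeasureTheory Set Filter Topology
open scoped ENNReal NNReal

namespace Pool.Agent.U379.ED

/-- A function which is `γ`-Hölder continuous at small distances maps a set of Hausdorff measure
zero in dimension `γ` to a null set. -/
theorem holder_null {D : ℝ → ℝ} {γ : ℝ} (hγ : 0 < γ) {C : ℝ} {E : Set ℝ}
    (hE : μH[γ] E = 0) (h : ∀ s ∈ E, ∀ t ∈ E, s < t → |D t - D s| ≤ C * (t - s) ^ γ) :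
    volume (D '' E) = 0 := by
  have hH : HolderOnWith C.toNNReal γ.toNNReal D E := by
    intro x hx y hy
    have key : ∀ s ∈ E, ∀ t ∈ E, s < t → edist (D s) (D t)
        ≤ (C.toNNReal : ℝ≥0∞) * edist s t ^ (γ.toNNReal : ℝ) := by
      intro s hs t ht hst
      have h1 := h s hs t ht hst
      have h2 : |D t - D s| ≤ max C 0 * (t - s) ^ γ := by
        refine h1.trans ?_
        gcongr
        exact le_max_left _ _
      have e1 : edist (D s) (D t) = ENNReal.ofReal |D t - D s| := by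
        rw [edist_comm, edist_dist, Real.dist_eq]
      have e2 : edist s t = ENNReal.ofReal (t - s) := by
        rw [edist_comm, edist_dist, Real.dist_eq, abs_of_pos (by linarith)]
      rw [e1, e2, Real.coe_toNNReal γ hγ.le,
        ENNReal.ofReal_rpow_of_nonneg (by linarith) hγ.le]
      have e3 : (C.toNNReal : ℝ≥0∞) = ENNReal.ofReal (max C 0) := by
        rw [ENNReal.ofReal_eq_coe_nnreal (le_max_right _ _)]
        congr 1
      rw [e3, ← ENNReal.ofReal_mul (le_max_right _ _)]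
      exact ENNReal.ofReal_le_ofReal h2
    rcases lt_trichotomy x y with h1 | h1 | h1
    · exact key x hx y hy h1
    · subst h1
      simp
    · rw [edist_comm (D x), edist_comm x]
      exact key y hy x hx h1
  have h1 := hH.hausdorffMeasure_image_le (Real.toNNReal_pos.mpr hγ) (d := 1) zero_le_one
  rw [mul_one, Real.coe_toNNReal γ hγ.le, hE, mul_zero] at h1
  rw [← hausdorffMeasure_real]
  exact le_antisymm h1 zero_le

theorem record {D : ℝ → ℝ} {a b : ℝ} {γ : ℕ → ℝ} (hab : a ≤ b) (hγ : ∀ i, 0 < γ i)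
    {A N : Set ℝ} {B : ℕ → Set ℝ}
    (husc : ∀ t ∈ Icc a b, ∀ ε > 0, ∃ δ > 0, ∀ s ∈ Icc a b, |s - t| < δ → D s < D t + ε)
    (hA : volume (D '' A) = 0) (hB : ∀ i, μH[γ i] (B i) = 0) (hN : N.Countable)
    (hJ : ∀ t ∈ Ioc a b, ∀ ε > 0, ∃ s ∈ Ico a t, D t - ε < D s)
    (h : ∀ t ∈ Ioc a b, t ∈ N ∨ t ∈ A ∨ ∃ i, t ∈ B i ∧ ∃ C δ : ℝ, 0 < δ ∧ ∀ s ∈ Ico a t,
      t - s < δ → D t - D s ≤ C * (t - s) ^ γ i) : D b ≤ D a := by
  by_contra hcon
  push Not at hcon
  set R := {t | t ∈ Ioc a b ∧ ∀ s ∈ Ico a t, D s < D t} with hR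
  have key : ∀ y ∈ Ioo (D a) (D b), ∃ t ∈ R, D t = y := by
    intro y hy
    set S := {t | t ∈ Icc a b ∧ y ≤ D t} with hS
    have hbS : b ∈ S := ⟨⟨hab, le_rfl⟩, hy.2.le⟩
    have hbdd : BddBelow S := ⟨a, fun t ht => ht.1.1⟩
    set τ := sInf S with hτ
    have hτa : a ≤ τ := le_csInf ⟨b, hbS⟩ fun t ht => ht.1.1
    have hτb : τ ≤ b := csInf_le hbdd hbS
    have hlt : ∀ s ∈ Ico a τ, D s < y := by
      intro s hs
      by_contra hc
      push Not at hc
      exact absurd (csInf_le hbdd (show s ∈ S from ⟨⟨hs.1, hs.2.le.trans hτb⟩, hc⟩))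
        (not_le.mpr hs.2)
    have hge : y ≤ D τ := by
      by_contra hc
      push Not at hc
      obtain ⟨δ, hδ, h1⟩ := husc τ ⟨hτa, hτb⟩ (y - D τ) (by linarith)
      obtain ⟨s, hs, hs2⟩ := exists_lt_of_csInf_lt ⟨b, hbS⟩ (show sInf S < τ + δ by linarith)
      have hs3 : τ ≤ s := csInf_le hbdd hs
      have := h1 s hs.1 (by rw [abs_of_nonneg (by linarith)]; linarith)
      have := hs.2
      linarith
    have hne : a ≠ τ := by
      intro e
      rw [← e] at hge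
      linarith [hy.1]
    have hτI : τ ∈ Ioc a b := ⟨lt_of_le_of_ne hτa hne, hτb⟩
    have he : D τ = y := by
      by_contra hne2
      have h1 : y < D τ := lt_of_le_of_ne hge (Ne.symm hne2)
      obtain ⟨s, hs, hs2⟩ := hJ τ hτI (D τ - y) (by linarith)
      linarith [hlt s hs]
    exact ⟨τ, ⟨hτI, fun s hs => by rw [he]; exact hlt s hs⟩, he⟩
  set E : ℕ → ℕ → ℕ → Set ℝ := fun i k j => {t | t ∈ R ∧ t ∈ B i ∧
    t ∈ Ico (a + j / ((k : ℝ) + 1)) (a + (j + 1) / ((k : ℝ) + 1)) ∧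
    ∀ s ∈ Ico a t, t - s < 1 / ((k : ℝ) + 1) → D t - D s ≤ ((k : ℝ) + 1) * (t - s) ^ γ i}
    with hE
  have hcov : Ioo (D a) (D b) ⊆ D '' N ∪ D '' A ∪ ⋃ i, ⋃ k, ⋃ j, D '' (E i k j) := by
    intro y hy
    obtain ⟨t, ht, rfl⟩ := key y hy
    rcases h t ht.1 with h1 | h1 | ⟨i, h1, C, δ, hδ, h2⟩
    · exact Or.inl (Or.inl ⟨t, h1, rfl⟩)
    · exact Or.inl (Or.inr ⟨t, h1, rfl⟩)
    · right
      obtain ⟨k, hk⟩ := exists_nat_ge (max C (1 / δ))
      have k0 : (0 : ℝ) < (k : ℝ) + 1 := by positivity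
      have k1 : C ≤ (k : ℝ) + 1 := by linarith [(le_max_left C (1 / δ)).trans hk]
      have k2 : 1 / ((k : ℝ) + 1) ≤ δ := by
        have h3 := (le_max_right C (1 / δ)).trans hk
        rw [div_le_iff₀ hδ] at h3
        rw [div_le_iff₀ k0]
        nlinarith
      have hta : 0 ≤ (t - a) * ((k : ℝ) + 1) := by
        have := ht.1.1
        have : 0 ≤ t - a := by linarith
        positivity
      refine mem_iUnion.mpr ⟨i, mem_iUnion.mpr ⟨k, mem_iUnion.mpr
        ⟨⌊(t - a) * ((k : ℝ) + 1)⌋₊, t, ⟨ht, h1, ?_, ?_⟩, rfl⟩⟩⟩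
      · have f1 := Nat.floor_le hta
        have f2 := Nat.lt_floor_add_one ((t - a) * ((k : ℝ) + 1))
        constructor
        · have : (⌊(t - a) * ((k : ℝ) + 1)⌋₊ : ℝ) / ((k : ℝ) + 1) ≤ t - a := by
            rw [div_le_iff₀ k0]
            exact f1
          linarith
        · have : t - a < ((⌊(t - a) * ((k : ℝ) + 1)⌋₊ : ℝ) + 1) / ((k : ℝ) + 1) := by
            rw [lt_div_iff₀ k0]
            exact f2
          linarith
      · intro s hs hs2
        refine (h2 s hs (hs2.trans_le k2)).trans ?_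
        have : 0 ≤ t - s := by linarith [hs.2]
        gcongr
  have hnull : volume (D '' N ∪ D '' A ∪ ⋃ i, ⋃ k, ⋃ j, D '' (E i k j)) = 0 := by
    refine measure_union_null (measure_union_null ((hN.image D).measure_zero _) hA) ?_
    refine measure_iUnion_null fun i => measure_iUnion_null fun k =>
      measure_iUnion_null fun j => ?_
    refine holder_null (hγ i) (C := (k : ℝ) + 1)
      (measure_mono_null (fun t ht => ht.2.1) (hB i)) ?_
    intro s hs t ht hst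
    have k0 : (0 : ℝ) < (k : ℝ) + 1 := by positivity
    have m1 : s ∈ Ico a t := ⟨hs.1.1.1.le, hst⟩
    have m2 : t - s < 1 / ((k : ℝ) + 1) := by
      have h1 := hs.2.2.1.1
      have h2 := ht.2.2.1.2
      have h3 : ((j : ℝ) + 1) / ((k : ℝ) + 1) = j / ((k : ℝ) + 1) + 1 / ((k : ℝ) + 1) := by
        ring
      linarith
    have h1 := ht.2.2.2 s m1 m2
    have h2 := ht.1.2 s m1
    rw [abs_of_pos (by linarith)]
    exact h1
  have h0 := measure_mono_null hcov hnull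
  rw [Real.volume_Ioo, ENNReal.ofReal_eq_zero] at h0
  linarith

/-- the same from the right -/
theorem record' {D : ℝ → ℝ} {a b : ℝ} {γ : ℕ → ℝ} (hab : a ≤ b) (hγ : ∀ i, 0 < γ i)
    {A N : Set ℝ} {B : ℕ → Set ℝ}
    (husc : ∀ t ∈ Icc a b, ∀ ε > 0, ∃ δ > 0, ∀ s ∈ Icc a b, |s - t| < δ → D s < D t + ε)
    (hA : volume (D '' A) = 0) (hB : ∀ i, μH[γ i] (B i) = 0) (hN : N.Countable)
    (hJ : ∀ t ∈ Ico a b, ∀ ε > 0, ∃ s ∈ Ioc t b, D t - ε < D s)
    (h : ∀ t ∈ Ico a b, t ∈ N ∨ t ∈ A ∨ ∃ i, t ∈ B i ∧ ∃ C δ : ℝ, 0 < δ ∧ ∀ s ∈ Ioc t b,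
      s - t < δ → D t - D s ≤ C * (s - t) ^ γ i) : D a ≤ D b := by
  have himg : ∀ S : Set ℝ, (fun t => D (-t)) '' (Neg.neg '' S) = D '' S := by
    intro S
    rw [image_image]
    simp
  have hiso : Isometry (Neg.neg : ℝ → ℝ) := by
    intro x y
    rw [edist_dist, edist_dist, Real.dist_eq, Real.dist_eq, neg_sub_neg, abs_sub_comm]
  have key := record (D := fun t => D (-t)) (a := -b) (b := -a) (γ := γ) (by linarith) hγ
    (A := Neg.neg '' A) (B := fun i => Neg.neg '' B i) (N := Neg.neg '' N) ?_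
    (by rw [himg]; exact hA)
    (fun i => by rw [hiso.hausdorffMeasure_image (Or.inl (hγ i).le)]; exact hB i)
    (hN.image _) ?_ ?_
  · simpa using key
  · intro t ht ε hε
    obtain ⟨δ, hδ, h1⟩ := husc (-t) ⟨by linarith [ht.2], by linarith [ht.1]⟩ ε hε
    refine ⟨δ, hδ, fun s hs hst => h1 (-s) ⟨by linarith [hs.2], by linarith [hs.1]⟩ ?_⟩
    rwa [neg_sub_neg, abs_sub_comm]
  · intro t ht ε hε
    obtain ⟨s, hs, hs2⟩ := hJ (-t) ⟨by linarith [ht.2], by linarith [ht.1]⟩ ε hε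
    exact ⟨-s, ⟨by linarith [hs.2], by linarith [hs.1]⟩, by simpa using hs2⟩
  · intro t ht
    rcases h (-t) ⟨by linarith [ht.2], by linarith [ht.1]⟩ with h1 | h1 | ⟨i, h1, C, δ, hδ, h2⟩
    · exact Or.inl ⟨-t, h1, neg_neg t⟩
    · exact Or.inr (Or.inl ⟨-t, h1, neg_neg t⟩)
    · refine Or.inr (Or.inr ⟨i, ⟨-t, h1, neg_neg t⟩, C, δ, hδ, fun s hs hs2 => ?_⟩)
      have h3 := h2 (-s) ⟨by linarith [hs.2], by linarith [hs.1]⟩ (by linarith)
      have e : -s - -t = t - s := by ring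
      rw [e] at h3
      exact h3

end Pool.Agent.U379.ED
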