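import Pool.Agent.TH301.EQ.PubGood
import Pool.Agent.U379.ED.Haus
import Pool.Agent.U379.ED.Record

/-!
Quiet times are tame.
-/

set_option autoImplicit false
set_option linter.unusedSectionVars false

open MeasureTheory Set Filter Topology
open scoped InnerProductSpace ENNReal ContDiff NNReal

namespace Pool.Agent.U379.ED

open Pool.Agent.TH301.EQ Pool.Agent.TH340.FF

/-- The exponent `γ(r) = 2 (5 - 2 r) / (10 - 3 r)`. It decreases from `1/2` to `0` if `r` increases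
from `2` to `5/2`. -/
noncomputable def gam (r : ℝ) : ℝ := 2 * (5 - 2 * r) / (10 - 3 * r)

/-- The time `t` is quiet of order `r`: `∫_J ‖∇u‖^r ≤ C |J|^γ(r)` for all short intervals
`J ⊆ [0,T]` which contain `t`. -/
def Quiet {X : Type*} [Norm X] (T r : ℝ) (G : ℝ → X) (t : ℝ) : Prop :=
  ∃ C δ : ℝ, 0 < δ ∧ ∀ x y, 0 ≤ x → x ≤ t → t ≤ y → y ≤ T → y - x ≤ δ →
    ∫ τ in x..y, ‖G τ‖ ^ r ≤ C * (y - x) ^ gam r

theorem gam_pos {r : ℝ} (hr' : r < 5 / 2) : 0 < gam r := by
  unfold gam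
  have h1 : 0 < 5 - 2 * r := by linarith
  have h2 : 0 < 10 - 3 * r := by linarith
  positivity

theorem gam_le {r : ℝ} (hr : 2 ≤ r) (hr' : r < 5 / 2) : gam r ≤ 1 / 2 := by
  unfold gam
  have h2 : 0 < 10 - 3 * r := by linarith
  rw [div_le_iff₀ h2]
  linarith

theorem gam_two : gam 2 = 1 / 2 := by
  unfold gam
  norm_num

/-- Young's inequality -/
theorem young {p e m : ℝ} (hp : 1 ≤ p) (he : 0 ≤ e) (hm : 0 < m) :
    e ≤ m ^ (1 - p) / p * e ^ p + (1 - 1 / p) * m := by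
  have hp0 : 0 < p := by linarith
  have h1 := one_add_mul_self_le_rpow_one_add (s := e / m - 1) (by
    have : 0 ≤ e / m := by positivity
    linarith) hp
  have h2 : (1 : ℝ) + (e / m - 1) = e / m := by ring
  rw [h2, Real.div_rpow he hm.le] at h1
  have h3 : m ^ (1 - p) = m / m ^ p := by
    rw [Real.rpow_sub hm, Real.rpow_one]
  rw [h3]
  have hmp : 0 < m ^ p := by positivity
  have h4 : m / p * (1 + p * (e / m - 1)) ≤ m / p * (e ^ p / m ^ p) := by gcongr
  have h5 : m / p * (1 + p * (e / m - 1)) = e - (1 - 1 / p) * m := by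
    field_simp
    ring
  have h6 : m / p * (e ^ p / m ^ p) = m / m ^ p / p * e ^ p := by
    field_simp
  linarith

/-- the scaling -/
theorem scale {p ℓ A K I : ℝ} (hp : 1 ≤ p) (hp' : p < 5 / 4) (hℓ : 0 < ℓ) (hA : 0 < A)
    (hK : 0 ≤ K)
    (hAK : A ≤ K * ℓ ^ ((5 - 4 * p) / (5 - 3 * p))) (hI0 : 0 ≤ I)
    (hI : ∀ m : ℝ, 0 < m → I ≤ m ^ (1 - p) / p * A + (1 - 1 / p) * m * ℓ) :
    I ^ 5 ≤ K ^ ((5 - 3 * p) / p) * ℓ * A ^ 3 := by
  have hp0 : 0 < p := by linarith
  have hq : 0 < 5 - 3 * p := by linarith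
  have hq' : 5 - 3 * p ≠ 0 := hq.ne'
  set m := (A / ℓ) ^ (1 / p) with hm
  have hm0 : 0 < m := by positivity
  have hmp : m ^ p = A / ℓ := by
    rw [hm, ← Real.rpow_mul (by positivity), one_div_mul_cancel hp0.ne', Real.rpow_one]
  have hAm : A = m ^ p * ℓ := by
    rw [hmp]
    field_simp
  have h1 : I ≤ m * ℓ := by
    refine (hI m hm0).trans (le_of_eq ?_)
    have h3 : m ^ (1 - p) = m / m ^ p := by
      rw [Real.rpow_sub hm0, Real.rpow_one]
    rw [h3, hAm]
    have hmp : 0 < m ^ p := by positivity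
    field_simp
    ring
  have h2 : I ^ 5 ≤ (m * ℓ) ^ 5 := pow_le_pow_left₀ hI0 h1 5
  refine h2.trans ?_
  -- m ^ (5 - 3 p) * ℓ ≤ K ^ ((5 - 3 p) / p)
  have h3 : m ^ (5 - 3 * p) * ℓ ≤ K ^ ((5 - 3 * p) / p) := by
    have e1 : m ^ p ≤ K * ℓ ^ (-(p / (5 - 3 * p))) := by
      rw [hmp, div_le_iff₀ hℓ]
      refine hAK.trans (le_of_eq ?_)
      have : (5 - 4 * p) / (5 - 3 * p) = -(p / (5 - 3 * p)) + 1 := by
        rw [div_eq_iff hq', add_mul, neg_mul, div_mul_cancel₀ _ hq']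
        ring
      rw [this, Real.rpow_add hℓ, Real.rpow_one]
      ring
    have e2 : (m ^ p) ^ ((5 - 3 * p) / p) ≤ (K * ℓ ^ (-(p / (5 - 3 * p)))) ^ ((5 - 3 * p) / p) :=
      Real.rpow_le_rpow (by positivity) e1 (by positivity)
    rw [← Real.rpow_mul hm0.le, Real.mul_rpow hK (by positivity), ← Real.rpow_mul hℓ.le] at e2
    have e3 : p * ((5 - 3 * p) / p) = 5 - 3 * p := by field_simp
    have e4 : -(p / (5 - 3 * p)) * ((5 - 3 * p) / p) = -1 := by
      rw [neg_mul, div_mul_div_cancel₀ hq', div_self hp0.ne']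
    rw [e3, e4, Real.rpow_neg_one] at e2
    calc m ^ (5 - 3 * p) * ℓ ≤ K ^ ((5 - 3 * p) / p) * ℓ⁻¹ * ℓ := by gcongr
      _ = _ := by field_simp
  have e5 : (m * ℓ) ^ 5 = (m ^ (5 - 3 * p) * ℓ) * ℓ * A ^ 3 := by
    rw [hAm]
    have : m ^ (5 : ℕ) = m ^ (5 - 3 * p) * (m ^ p) ^ 3 := by
      rw [← Real.rpow_natCast (m ^ p) 3, ← Real.rpow_mul hm0.le, ← Real.rpow_add hm0,
        ← Real.rpow_natCast m 5]
      congr 1
      push_cast
      ring
    rw [mul_pow, this]
    ring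
  rw [e5]
  gcongr

theorem rpow_ii {X : Type*} [NormedAddCommGroup X] {T : ℝ} (hT : 0 < T) {G : ℝ → X} {r : ℝ}
    (hG : IntegrableOn (fun τ => ‖G τ‖ ^ r) (Ioo 0 T)) :
    IntervalIntegrable (fun τ => ‖G τ‖ ^ r) volume 0 T := ii_of_on hT hG

theorem tame_of_quiet {X : Type*} [NormedAddCommGroup X] {T r : ℝ} (hr : 2 ≤ r)
    (hr' : r < 5 / 2) {G : ℝ → X} (h2 : IntervalIntegrable (fun τ => ‖G τ‖ ^ 2) volume 0 T)
    (hG : IntervalIntegrable (fun τ => ‖G τ‖ ^ r) volume 0 T) {t : ℝ} (ht : t ∈ Icc 0 T)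
    (h : Quiet T r G t) :
    TameAt T (fun τ => ‖G τ‖ ^ 2) (fun τ => ‖G τ‖ ^ r + 1) t := by
  obtain ⟨C, δ, hδ, h⟩ := h
  set p := r / 2 with hp
  have hp1 : 1 ≤ p := by rw [hp]; linarith
  have hp2 : p < 5 / 4 := by rw [hp]; linarith
  have hgam : gam r = (5 - 4 * p) / (5 - 3 * p) := by
    unfold gam
    rw [hp]
    have : 10 - 3 * r ≠ 0 := by
      have : 0 < 10 - 3 * r := by linarith
      exact this.ne'
    have h3 : 5 - 3 * (r / 2) ≠ 0 := by
      have : 0 < 5 - 3 * (r / 2) := by linarith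
      exact this.ne'
    field_simp
    ring
  have hg0 := gam_pos hr'
  have hg1 := gam_le hr hr'
  set K := max C 0 * 2 ^ gam r + 1 with hK
  have hK0 : 0 ≤ K := by positivity
  refine ⟨K ^ ((5 - 3 * p) / p), min (δ / 2) 1, by positivity, fun x y hx hxy hy h0 h1 h2' => ?_⟩
  have hℓ : 0 < y - x := by linarith
  have hℓ1 : y - x ≤ 1 := h0.trans (min_le_right _ _)
  have hℓδ : y - x ≤ δ / 2 := h0.trans (min_le_left _ _)
  have hθ0 : ∀ τ, 0 ≤ (fun τ => ‖G τ‖ ^ r) τ := fun τ => by positivity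
  have hGxy := sub_int hG hx hxy.le hy
  have h2xy := sub_int h2 hx hxy.le hy
  have k1 := h (min x t) (max y t) (le_min hx ht.1) (min_le_right _ _) (le_max_right _ _)
    (max_le hy ht.2)
  have k2 : max y t - min x t ≤ 2 * (y - x) := by
    rcases le_total y t with a | a
    · rw [max_eq_right a, min_eq_left (hxy.le.trans a)]; linarith
    · rw [max_eq_left a]
      rcases le_total x t with b | b
      · rw [min_eq_left b]; linarith
      · rw [min_eq_right b]; linarith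
  have k0 : 0 ≤ max y t - min x t := by
    have := le_max_left y t
    have := min_le_left x t
    linarith
  have k3 := k1 (by linarith)
  have k4 : ∫ τ in x..y, ‖G τ‖ ^ r ≤ ∫ τ in (min x t)..(max y t), ‖G τ‖ ^ r :=
    int_mono_set hG hθ0 (le_min hx ht.1) (min_le_left _ _) hxy.le (le_max_left _ _)
      (max_le hy ht.2)
  have k5 : ∫ τ in x..y, ‖G τ‖ ^ r ≤ max C 0 * 2 ^ gam r * (y - x) ^ gam r := by
    refine (k4.trans k3).trans ?_
    have e1 : (max y t - min x t) ^ gam r ≤ (2 * (y - x)) ^ gam r :=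
      Real.rpow_le_rpow k0 k2 hg0.le
    rw [Real.mul_rpow (by norm_num) hℓ.le] at e1
    calc C * (max y t - min x t) ^ gam r ≤ max C 0 * (max y t - min x t) ^ gam r := by
          gcongr
          exact le_max_left _ _
      _ ≤ max C 0 * (2 ^ gam r * (y - x) ^ gam r) := by gcongr
      _ = _ := by ring
  have k6 : y - x ≤ (y - x) ^ gam r := by
    calc y - x = (y - x) ^ (1 : ℝ) := (Real.rpow_one _).symm
      _ ≤ (y - x) ^ gam r := Real.rpow_le_rpow_of_exponent_ge hℓ hℓ1 (by linarith)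
  have hA : ∫ τ in x..y, (‖G τ‖ ^ r + 1) = (∫ τ in x..y, ‖G τ‖ ^ r) + (y - x) := by
    rw [intervalIntegral.integral_add hGxy intervalIntegrable_const,
      intervalIntegral.integral_const, smul_eq_mul, mul_one]
  have hA0 : 0 ≤ ∫ τ in x..y, ‖G τ‖ ^ r :=
    intervalIntegral.integral_nonneg hxy.le fun τ _ => hθ0 τ
  refine scale hp1 hp2 hℓ (by rw [hA]; linarith) hK0 ?_
    (intervalIntegral.integral_nonneg hxy.le fun τ _ => by positivity) ?_
  · rw [hA, ← hgam, hK]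
    calc (∫ τ in x..y, ‖G τ‖ ^ r) + (y - x)
        ≤ max C 0 * 2 ^ gam r * (y - x) ^ gam r + (y - x) ^ gam r := add_le_add k5 k6
      _ = _ := by ring
  · intro m hm
    have e1 : ∀ τ, ‖G τ‖ ^ 2 ≤ m ^ (1 - p) / p * (‖G τ‖ ^ r + 1) + (1 - 1 / p) * m := by
      intro τ
      have h3 := young hp1 (show (0 : ℝ) ≤ ‖G τ‖ ^ 2 by positivity) hm
      have h4 : (‖G τ‖ ^ 2) ^ p = ‖G τ‖ ^ r := by
        rw [← Real.rpow_natCast, ← Real.rpow_mul (norm_nonneg _)]
        congr 1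
        rw [hp]
        push_cast
        ring
      rw [h4] at h3
      have h5 : 0 ≤ m ^ (1 - p) / p := by positivity
      linarith
    have i1 : IntervalIntegrable (fun τ => m ^ (1 - p) / p * (‖G τ‖ ^ r + 1)) volume x y :=
      (hGxy.add intervalIntegrable_const).const_mul _
    calc ∫ τ in x..y, ‖G τ‖ ^ 2
        ≤ ∫ τ in x..y, (m ^ (1 - p) / p * (‖G τ‖ ^ r + 1) + (1 - 1 / p) * m) :=
          intervalIntegral.integral_mono_on hxy.le h2xy (i1.add intervalIntegrable_const)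
            fun τ _ => e1 τ
      _ = _ := by
          rw [intervalIntegral.integral_add i1 intervalIntegrable_const,
            intervalIntegral.integral_const_mul, intervalIntegral.integral_const, smul_eq_mul]
          ring

end Pool.Agent.U379.ED
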